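import Pool.Agent.H36.KT.Main
import Pool.Agent.H36.KT.Lim

set_option autoImplicit false

/-!
# Thinnest coverings of three-space with a Delaunay triangulation of Kuhn type (MP_94c33d_co)

The generic lattices of three-space (Voronoi's principal domain, among them the body-centred cubic
lattice) all have a Delaunay triangulation of the same combinatorial type: that of the Kuhn
(Freudenthal) triangulation with vertex set `ℤ³`. We show that every covering of three-space by
equal balls, lattice or not, with a Delaunay triangulation of this combinatorial type has density
at least `5 √5 π / 24`, the density of the body-centred cubic lattice covering.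
-/

namespace Pool.Agent.Results.MP_94c33d_co.KuhnType

open H36KT

theorem result (p : (Fin 3 → ℤ) → EuclideanSpace ℝ (Fin 3)) (hp : IsKuhnDelaunay p) (r : ℝ)
    (hcov : IsBallCovering p r) :
    ENNReal.ofReal (5 * Real.sqrt 5 * Real.pi / 24) ≤ density p r := by
  refine liminf_of_rec (fun R => ({w | ‖p w‖ ≤ R} : Set (Fin 3 → ℤ)).encard) r hcov.1 ?_ ?_
  · intro R R' h
    refine Set.encard_le_encard ?_
    intro w hw
    exact le_trans hw h
  · intro R hR a b ha hb
    exact main_ineq hp hcov R hR a b ha hb

end Pool.Agent.Results.MP_94c33d_co.KuhnType
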